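import Pool.Agent.Helper23.MV.StC
import Pool.Agent.Helper29.GK.M_SSA

/-!
# Project MV, module MNT (main term)
-/

set_option autoImplicit false

namespace Pool.Agent.Helper20.MV

open Finset ArithmeticFunction
open Pool.Agent.Helper23.MV
open Pool.Agent.Helper23.GK (cR SS)

/-- the trivial primitive character -/
private noncomputable def tMnt : PCh where
  r := 1
  hr := one_ne_zero
  χ := 1
  prim := DirichletCharacter.isPrimitive_one_level_one

private theorem eq_tMnt (c : PCh) (hc : c.χ = 1) : c = tMnt := by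
  obtain ⟨r, hr, χ, prim⟩ := c
  have : NeZero r := ⟨hr⟩
  have h1 : r = 1 := by
    have h2 : χ.conductor = r := prim
    have h3 : χ = 1 := hc
    have h4 : (1 : DirichletCharacter ℂ r).conductor = 1 :=
      DirichletCharacter.conductor_one
    rw [h3, h4] at h2
    exact h2.symm
  subst h1
  have h5 : χ = 1 := hc
  subst h5
  rfl

private theorem tMnt_chi : tMnt.χ = 1 := rfl

private theorem iff_tMnt (c : PCh) : c.χ = 1 ↔ c = tMnt :=
  ⟨eq_tMnt c, fun h => by rw [h]; rfl⟩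

open Classical in
private theorem mwt_none_mnt (c : PCh) (u : ℝ) :
    mwt none c u = if c = tMnt then 1 else 0 := by
  unfold mwt
  simp only [sub_zero]
  by_cases h : c = tMnt
  · rw [if_pos h, if_pos ((iff_tMnt c).2 h)]
  · rw [if_neg h, if_neg (fun h' => h ((iff_tMnt c).1 h'))]

open Classical in
private theorem mwt_some_mnt (e : PCh) (δ : ℝ) (c : PCh) (u : ℝ) :
    mwt (some (e, δ)) c u = (if c = tMnt then 1 else 0) - (if c = e then u ^ (-δ) else 0) := by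
  unfold mwt
  by_cases h : c = tMnt
  · rw [if_pos h, if_pos ((iff_tMnt c).2 h)]
  · rw [if_neg h, if_neg (fun h' => h ((iff_tMnt c).1 h'))]

open Classical in
private theorem sum1_mnt (S : Finset PCh) (t e : PCh) (ht : t ∈ S) (he : e ∈ S) (f : PCh → ℂ)
    (v : ℝ) :
    ∑ c ∈ S, f c * (((if c = t then (1 : ℝ) else 0) - (if c = e then v else 0) : ℝ) : ℂ) =
      f t - (v : ℂ) * f e := by
  have h1 : ∀ c ∈ S, f c * (((if c = t then (1 : ℝ) else 0) - (if c = e then v else 0) : ℝ) : ℂ) =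
      (if c = t then f c else 0) - (if c = e then (v : ℂ) * f c else 0) := by
    intro c _
    push_cast
    split_ifs <;> simp <;> ring
  rw [sum_congr rfl h1, sum_sub_distrib, sum_ite_eq' S t, sum_ite_eq' S e, if_pos ht, if_pos he]

open Classical in
private theorem sum2_mnt (S : Finset PCh) (t e : PCh) (ht : t ∈ S) (he : e ∈ S)
    (K : PCh → PCh → ℂ) (u v : ℝ) :
    ∑ c₁ ∈ S, ∑ c₂ ∈ S, K c₁ c₂ *
      ((((if c₁ = t then (1 : ℝ) else 0) - (if c₁ = e then u else 0)) *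
        ((if c₂ = t then (1 : ℝ) else 0) - (if c₂ = e then v else 0)) : ℝ) : ℂ) =
      K t t - (u : ℂ) * K e t - (v : ℂ) * K t e + (u * v : ℂ) * K e e := by
  have h1 : ∀ c₁ ∈ S, ∑ c₂ ∈ S, K c₁ c₂ *
      ((((if c₁ = t then (1 : ℝ) else 0) - (if c₁ = e then u else 0)) *
        ((if c₂ = t then (1 : ℝ) else 0) - (if c₂ = e then v else 0)) : ℝ) : ℂ) =
      (K c₁ t - (v : ℂ) * K c₁ e) *
        (((if c₁ = t then (1 : ℝ) else 0) - (if c₁ = e then u else 0) : ℝ) : ℂ) := by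
    intro c₁ _
    rw [← sum1_mnt S t e ht he (fun c => K c₁ c) v, sum_mul]
    refine sum_congr rfl fun c₂ _ => ?_
    push_cast
    ring
  rw [sum_congr rfl h1, sum1_mnt S t e ht he (fun c => K c t - (v : ℂ) * K c e) u]
  ring

private theorem exch_mnt (S : Finset PCh) (T : Finset ℕ) (K : PCh → PCh → ℂ)
    (w : PCh → PCh → ℕ → ℝ) :
    ∑ c₁ ∈ S, ∑ c₂ ∈ S, K c₁ c₂ * ((∑ n ∈ T, w c₁ c₂ n : ℝ) : ℂ) =
      ∑ n ∈ T, ∑ c₁ ∈ S, ∑ c₂ ∈ S, K c₁ c₂ * ((w c₁ c₂ n : ℝ) : ℂ) := by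
  have h1 : ∀ c₁ ∈ S, ∑ c₂ ∈ S, K c₁ c₂ * ((∑ n ∈ T, w c₁ c₂ n : ℝ) : ℂ) =
      ∑ n ∈ T, ∑ c₂ ∈ S, K c₁ c₂ * ((w c₁ c₂ n : ℝ) : ℂ) := by
    intro c₁ _
    rw [sum_comm]
    refine sum_congr rfl fun c₂ _ => ?_
    push_cast
    rw [mul_sum]
  rw [sum_congr rfl h1, sum_comm]

/-- `u^{-δ} ≤ 1` and `1 - u^{-δ} ≥ min(1, δ log X)/3` for `u ≥ √X` -/
private theorem rp_mnt (X u δ : ℝ) (hX : 1 ≤ X) (hu : √X ≤ u) (hδ : 0 < δ) :
    0 ≤ u ^ (-δ) ∧ u ^ (-δ) ≤ 1 ∧ min 1 (δ * Real.log X) / 3 ≤ 1 - u ^ (-δ) := by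
  have hs1 : 1 ≤ √X := by rw [Real.one_le_sqrt]; exact hX
  have hu1 : 1 ≤ u := hs1.trans hu
  have hu0 : 0 < u := by linarith
  have h0 : 0 ≤ u ^ (-δ) := Real.rpow_nonneg hu0.le _
  have hL : 0 ≤ Real.log X := Real.log_nonneg hX
  set m := min 1 (δ * Real.log X) with hm
  have hm0 : 0 ≤ m := le_min zero_le_one (mul_nonneg hδ.le hL)
  have hm1 : m ≤ 1 := min_le_left _ _
  have hm2 : m ≤ δ * Real.log X := min_le_right _ _
  have hlog : Real.log X / 2 ≤ Real.log u := by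
    rw [← Real.log_sqrt (by linarith)]
    exact Real.log_le_log (by linarith) hu
  have h1 : u ^ (-δ) = Real.exp (-(δ * Real.log u)) := by
    rw [Real.rpow_def_of_pos hu0]
    congr 1
    ring
  have h2 : m / 2 ≤ δ * Real.log u := by
    have h3 : δ * (Real.log X / 2) ≤ δ * Real.log u := mul_le_mul_of_nonneg_left hlog hδ.le
    linarith
  have h3 : u ^ (-δ) ≤ Real.exp (-(m / 2)) := by
    rw [h1]
    exact Real.exp_le_exp.2 (by linarith)
  have h4 : Real.exp (-(m / 2)) ≤ 1 / (1 + m / 2) := by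
    rw [Real.exp_neg, ← one_div]
    apply one_div_le_one_div_of_le (by linarith)
    have := Real.add_one_le_exp (m / 2)
    linarith
  have h5 : 1 / (1 + m / 2) ≤ 1 - m / 3 := by
    rw [div_le_iff₀ (by linarith)]
    nlinarith
  refine ⟨h0, ?_, ?_⟩ <;> linarith

/-- MNT (the main term) -/
theorem hMnt : StFin → StKmn → StMnt := by
  intro hF hK
  obtain ⟨C, hC1, hK⟩ := hK
  refine ⟨C, hC1, ?_⟩
  intro X o N P hX hO hr hP hXN hN2 hev
  classical
  have hPS := hF.1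
  have htP : tMnt ∈ PS P := by
    rw [hPS]
    simpa [tMnt] using hP
  have hN1 : 1 ≤ N := by omega
  have hSS : 1 ≤ SS N := (Pool.Agent.Helper29.GK.hSSA N hN1).1
  set H := Nat.sqrt X with hH
  have hH10 : 10 ≤ H := by
    rw [hH, Nat.le_sqrt]
    omega
  have hHH : H * H ≤ X := Nat.sqrt_le X
  have hHX : X < (H + 1) * (H + 1) := Nat.lt_succ_sqrt X
  have hsq : √(X : ℝ) ≤ H + 1 := by
    rw [Real.sqrt_le_left (by positivity)]
    have : (X : ℝ) ≤ ((H + 1) * (H + 1) : ℕ) := by exact_mod_cast hHX.le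
    push_cast at this
    nlinarith
  have hcard : (Ioc (2 * H) (3 * H)).card = H := by
    rw [Nat.card_Ioc]
    omega
  have hd0 : (0 : ℝ) ≤ N.divisors.card := Nat.cast_nonneg _
  have hP0 : 0 < P := by linarith
  obtain ⟨hKt, hKe⟩ := hK tMnt P N tMnt_chi hP hN1 hev
  rw [exch_mnt (PS P) (Ioc (2 * H) (3 * H)) (fun c₁ c₂ => KK c₁ c₂ P N)
    (fun c₁ c₂ n => mwt o c₁ n * mwt o c₂ ((N - n : ℕ) : ℝ)), Complex.re_sum]
  have hlow : ∀ n ∈ Ioc (2 * H) (3 * H),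
      SS N * (mm o X ^ 2 / 10 - C * (N.divisors.card : ℝ) * P ^ (-(1 / 4) : ℝ)) ≤
      (∑ c₁ ∈ PS P, ∑ c₂ ∈ PS P, KK c₁ c₂ P N *
        ((mwt o c₁ n * mwt o c₂ ((N - n : ℕ) : ℝ) : ℝ) : ℂ)).re := by
    intro n hn
    rw [mem_Ioc] at hn
    rcases o with _ | ⟨e, δ⟩
    · -- no exceptional zero
      have h1 : ∑ c₁ ∈ PS P, ∑ c₂ ∈ PS P, KK c₁ c₂ P N *
          ((mwt none c₁ n * mwt none c₂ ((N - n : ℕ) : ℝ) : ℝ) : ℂ) = KK tMnt tMnt P N := by
        have h2 := sum2_mnt (PS P) tMnt tMnt htP htP (fun c₁ c₂ => KK c₁ c₂ P N) 0 0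
        simp only [ite_self, sub_zero, Complex.ofReal_zero, zero_mul, add_zero] at h2
        rw [← h2]
        refine sum_congr rfl fun c₁ _ => sum_congr rfl fun c₂ _ => ?_
        rw [mwt_none_mnt, mwt_none_mnt]
      rw [h1]
      have h3 : |(KK tMnt tMnt P N - ((SS N : ℝ) : ℂ)).re| ≤
          C * (N.divisors.card : ℝ) * P ^ (-(1 / 2) : ℝ) :=
        (Complex.abs_re_le_norm _).trans hKt
      rw [Complex.sub_re, Complex.ofReal_re] at h3
      have h4 := (abs_le.1 h3).1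
      have h5 : P ^ (-(1 / 2) : ℝ) ≤ P ^ (-(1 / 4) : ℝ) :=
        Real.rpow_le_rpow_of_exponent_le hP (by norm_num)
      have h6 : C * (N.divisors.card : ℝ) * P ^ (-(1 / 2) : ℝ) ≤
          C * (N.divisors.card : ℝ) * P ^ (-(1 / 4) : ℝ) :=
        mul_le_mul_of_nonneg_left h5 (by positivity)
      have h7 : 0 ≤ C * (N.divisors.card : ℝ) * P ^ (-(1 / 4) : ℝ) := by positivity
      have h8 : mm none (X : ℝ) = 1 := rfl
      rw [h8]
      nlinarith
    · -- exceptional zero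
      obtain ⟨heR, hδ0, hδ1, -, -⟩ := hO e δ rfl
      have her := hr e δ rfl
      have heP : e ∈ PS P := by
        rw [hPS]
        have h1 : (1 : ℝ) ≤ e.r := by
          exact_mod_cast Nat.one_le_iff_ne_zero.2 e.hr
        nlinarith
      have hX1 : (1 : ℝ) ≤ X := by
        have : (100 : ℝ) ≤ X := by exact_mod_cast hX
        linarith
      have hu : √(X : ℝ) ≤ (n : ℝ) := by
        have : H + 1 ≤ n := by omega
        have h2 : ((H : ℝ) + 1) ≤ n := by exact_mod_cast this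
        linarith
      have hv : √(X : ℝ) ≤ ((N - n : ℕ) : ℝ) := by
        have h0 : 10 * H ≤ H * H := Nat.mul_le_mul_right H hH10
        have : H + 1 ≤ N - n := by omega
        have h2 : ((H : ℝ) + 1) ≤ ((N - n : ℕ) : ℝ) := by exact_mod_cast this
        linarith
      obtain ⟨u0, u1, u2⟩ := rp_mnt X n δ hX1 hu hδ0
      obtain ⟨v0, v1, v2⟩ := rp_mnt X ((N - n : ℕ) : ℝ) δ hX1 hv hδ0
      have h1 : ∑ c₁ ∈ PS P, ∑ c₂ ∈ PS P, KK c₁ c₂ P N *
          ((mwt (some (e, δ)) c₁ n * mwt (some (e, δ)) c₂ ((N - n : ℕ) : ℝ) : ℝ) : ℂ) =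
          KK tMnt tMnt P N - (((n : ℝ) ^ (-δ) : ℝ) : ℂ) * KK e tMnt P N -
            ((((N - n : ℕ) : ℝ) ^ (-δ) : ℝ) : ℂ) * KK tMnt e P N +
            ((((n : ℝ) ^ (-δ) : ℝ) : ℂ) * ((((N - n : ℕ) : ℝ) ^ (-δ) : ℝ) : ℂ)) * KK e e P N := by
        rw [← sum2_mnt (PS P) tMnt e htP heP (fun c₁ c₂ => KK c₁ c₂ P N)]
        refine sum_congr rfl fun c₁ _ => sum_congr rfl fun c₂ _ => ?_
        rw [mwt_some_mnt, mwt_some_mnt]
      rw [h1]
      have h2 := hKe e ((n : ℝ) ^ (-δ)) (((N - n : ℕ) : ℝ) ^ (-δ)) heR her u0 u1 v0 v1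
      refine le_trans ?_ h2
      have h3 : mm (some (e, δ)) (X : ℝ) = min 1 (δ * Real.log X) := rfl
      rw [h3]
      set m := min 1 (δ * Real.log (X : ℝ)) with hm
      have hm0 : 0 ≤ m := le_min zero_le_one (mul_nonneg hδ0.le (Real.log_nonneg hX1))
      have h4 : m / 3 * (m / 3) ≤ (1 - (n : ℝ) ^ (-δ)) * (1 - ((N - n : ℕ) : ℝ) ^ (-δ)) :=
        mul_le_mul u2 v2 (by positivity) (by linarith)
      have h5 : m ^ 2 / 10 ≤ (1 - (n : ℝ) ^ (-δ)) * (1 - ((N - n : ℕ) : ℝ) ^ (-δ)) := by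
        nlinarith
      have h6 := mul_le_mul_of_nonneg_right h5 (by linarith : (0 : ℝ) ≤ SS N)
      nlinarith
  have h1 := sum_le_sum hlow
  rw [sum_const, hcard, nsmul_eq_mul] at h1
  calc (H : ℝ) * SS N * (mm o X ^ 2 / 10 - C * (N.divisors.card : ℝ) * P ^ (-(1 / 4) : ℝ))
      = (H : ℝ) * (SS N * (mm o X ^ 2 / 10 - C * (N.divisors.card : ℝ) * P ^ (-(1 / 4) : ℝ))) := by
        ring
    _ ≤ _ := h1

end Pool.Agent.Helper20.MV
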