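import Pool.Agent.Helper23.MV.StE

/-! # Project MV, module TR1 : truncated L-series, nonprincipal characters -/

set_option autoImplicit false

namespace Pool.Agent.Helper20.MV

open Finset ArithmeticFunction
open Pool.Agent.Helper23.MV
open Pool.Agent.Helper2.MR (ch)

private lemma abelIdTR1 (c : ℕ → ℂ) (w : ℕ → ℝ) (a b : ℕ) (hab : a ≤ b) :
    ∑ n ∈ Ioc a b, ((w n : ℝ) : ℂ) * c n =
      ((w (b + 1) : ℝ) : ℂ) * ∑ n ∈ Ioc a b, c n +
        ∑ m ∈ Ioc a b, (((w m - w (m + 1) : ℝ)) : ℂ) * ∑ n ∈ Ioc a m, c n := by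
  induction b, hab using Nat.le_induction with
  | base => simp
  | succ b hab ih =>
    rw [← insert_Ioc_right_eq_Ioc_add_one (by omega : a ≤ b), sum_insert (by simp),
      sum_insert (by simp), sum_insert (by simp), ih,
      ← insert_Ioc_right_eq_Ioc_add_one (by omega : a ≤ b), sum_insert (by simp)]
    push_cast
    ring

private lemma teleTR1 (w : ℕ → ℝ) (a b : ℕ) (hab : a ≤ b) :
    ∑ m ∈ Ioc a b, (w m - w (m + 1)) = w (a + 1) - w (b + 1) := by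
  induction b, hab using Nat.le_induction with
  | base => simp
  | succ b hab ih =>
    rw [← insert_Ioc_right_eq_Ioc_add_one (by omega : a ≤ b), sum_insert (by simp), ih]
    ring

private lemma abelTR1 (c : ℕ → ℂ) (w : ℕ → ℝ) (a b : ℕ) (B : ℝ) (hab : a ≤ b)
    (hw : ∀ n, a < n → 0 ≤ w n) (hw' : ∀ n, a < n → w (n + 1) ≤ w n)
    (hB : ∀ m, a ≤ m → m ≤ b → ‖∑ n ∈ Ioc a m, c n‖ ≤ B) :
    ‖∑ n ∈ Ioc a b, ((w n : ℝ) : ℂ) * c n‖ ≤ B * w (a + 1) := by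
  rw [abelIdTR1 c w a b hab]
  have h1 : ‖((w (b + 1) : ℝ) : ℂ) * ∑ n ∈ Ioc a b, c n‖ ≤ w (b + 1) * B := by
    rw [norm_mul, Complex.norm_real, Real.norm_of_nonneg (hw _ (by omega))]
    exact mul_le_mul_of_nonneg_left (hB b hab le_rfl) (hw _ (by omega))
  have h2 : ‖∑ m ∈ Ioc a b, (((w m - w (m + 1) : ℝ)) : ℂ) * ∑ n ∈ Ioc a m, c n‖ ≤
      ∑ m ∈ Ioc a b, (w m - w (m + 1)) * B := by
    refine (norm_sum_le _ _).trans (sum_le_sum fun m hm => ?_)
    rw [mem_Ioc] at hm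
    rw [norm_mul, Complex.norm_real, Real.norm_of_nonneg (by linarith [hw' m hm.1])]
    exact mul_le_mul_of_nonneg_left (hB m hm.1.le hm.2) (by linarith [hw' m hm.1])
  rw [← sum_mul, teleTR1 w a b hab] at h2
  calc _ ≤ w (b + 1) * B + (w (a + 1) - w (b + 1)) * B := (norm_add_le _ _).trans (add_le_add h1 h2)
    _ = _ := by ring

private lemma resTR1 {q : ℕ} [NeZero q] (χ : DirichletCharacter ℂ q) (g : ℕ → ℂ) (S : Finset ℕ)
    (B : ℝ) (hB : ∀ u < q, ‖∑ n ∈ S.filter (fun n => n ≡ u [MOD q]), g n‖ ≤ B) :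
    ‖∑ n ∈ S, χ (n : ZMod q) * g n‖ ≤ q * B := by
  have hq : 0 < q := Nat.pos_of_ne_zero (NeZero.ne q)
  have h1 : ∑ n ∈ S, χ (n : ZMod q) * g n =
      ∑ u ∈ range q, χ (u : ZMod q) * ∑ n ∈ S.filter (fun n => n ≡ u [MOD q]), g n := by
    rw [← sum_fiberwise_of_maps_to (s := S) (t := range q) (g := fun n => n % q)
      (fun n _ => mem_range.2 (Nat.mod_lt _ hq))]
    refine sum_congr rfl fun u hu => ?_
    rw [mem_range] at hu
    rw [mul_sum]
    have h2 : S.filter (fun n => n % q = u) = S.filter (fun n => n ≡ u [MOD q]) := by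
      refine filter_congr fun n _ => ?_
      unfold Nat.ModEq
      rw [Nat.mod_eq_of_lt hu]
    rw [h2]
    refine sum_congr rfl fun n hn => ?_
    rw [mem_filter] at hn
    rw [(ZMod.natCast_eq_natCast_iff n u q).2 hn.2]
  rw [h1]
  calc _ ≤ ∑ u ∈ range q, B := by
        refine (norm_sum_le _ _).trans (sum_le_sum fun u hu => ?_)
        rw [mem_range] at hu
        rw [norm_mul]
        calc _ ≤ 1 * ‖∑ n ∈ S.filter (fun n => n ≡ u [MOD q]), g n‖ :=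
              mul_le_mul_of_nonneg_right (DirichletCharacter.norm_le_one χ _) (norm_nonneg _)
          _ ≤ B := by rw [one_mul]; exact hB u hu
    _ = q * B := by simp

private lemma cpowTR1 (σ t : ℝ) (n : ℕ) (hn : 0 < n) :
    (n : ℂ) ^ (-((σ : ℂ) + t * Complex.I)) = (((n : ℝ) ^ (-σ) : ℝ) : ℂ) * ch t n := by
  have h0 : (n : ℂ) ≠ 0 := by exact_mod_cast hn.ne'
  rw [Complex.cpow_def_of_ne_zero h0, ← Complex.natCast_log, Real.rpow_def_of_pos (by exact_mod_cast hn), ch,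
    Complex.ofReal_exp, ← Complex.exp_add]
  congr 1
  push_cast
  ring

/-- dyadic decomposition -/
private lemma dyTR1 (f : ℕ → ℂ) (B : ℝ) (hB : 0 ≤ B) (a : ℕ) (J : ℕ) : ∀ b : ℕ, b ≤ 2 ^ J * a →
    (∀ N N' : ℕ, a ≤ N → N ≤ N' → N' ≤ 2 * N → N' ≤ b → ‖∑ n ∈ Ioc N N', f n‖ ≤ B) →
    ‖∑ n ∈ Ioc a b, f n‖ ≤ J * B := by
  induction J with
  | zero =>
    intro b hb _
    have h0 : Ioc a b = ∅ := Ioc_eq_empty_of_le (by simpa using hb)
    simp [h0]
  | succ J ih =>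
    intro b hb h
    rcases le_total b (2 ^ J * a) with h1 | h1
    · have h2 := ih b h1 h
      push_cast
      linarith
    · have ha : a ≤ 2 ^ J * a := Nat.le_mul_of_pos_left _ (by positivity)
      rw [← sum_Ioc_consecutive f ha h1]
      have e1 := ih (2 ^ J * a) le_rfl
        (fun N N' h1' h2' h3' h4' => h N N' h1' h2' h3' (h4'.trans h1))
      have e2 := h (2 ^ J * a) b ha h1 (by rw [pow_succ] at hb; linarith) le_rfl
      calc _ ≤ (J : ℝ) * B + B := (norm_add_le _ _).trans (add_le_add e1 e2)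
        _ = ((J + 1 : ℕ) : ℝ) * B := by push_cast; ring

private lemma blkTR1 {κ' C c' : ℝ} (hC : 0 < C)
    (hE : ∀ (X : ℝ) (N N' q u : ℕ) (t : ℝ), 2 ≤ X →
      X ^ κ' ≤ N → N ≤ N' → N' ≤ 2 * N → 1 ≤ q → 1 ≤ |t| → |t| ≤ X ^ 2 →
      ‖∑ n ∈ (Ioc N N').filter (fun n => n ≡ u [MOD q]), ch t n‖ ≤ C * q * N * (1 / |t| + X ^ (-c')))
    (X : ℝ) (hX : 2 ≤ X) (N N' q : ℕ) [NeZero q] (ψ : DirichletCharacter ℂ q)
    (s : ℂ) (hσ : 0 ≤ s.re) (h1 : X ^ κ' ≤ N) (h0 : 1 ≤ N) (h2 : N ≤ N') (h3 : N' ≤ 2 * N)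
    (ht1 : 1 ≤ |s.im|) (ht2 : |s.im| ≤ X ^ 2) :
    ‖∑ n ∈ Ioc N N', ψ (n : ZMod q) * (n : ℂ) ^ (-s)‖ ≤
      C * (q : ℝ) ^ 2 * (N : ℝ) ^ (1 - s.re) * (1 / |s.im| + X ^ (-c')) := by
  have hq : 1 ≤ q := Nat.pos_of_ne_zero (NeZero.ne q)
  have hX0 : 0 < X := by linarith
  have hNR : (0 : ℝ) < N := by exact_mod_cast (by omega : 0 < N)
  have e1 : ∑ n ∈ Ioc N N', ψ (n : ZMod q) * (n : ℂ) ^ (-s) =
      ∑ n ∈ Ioc N N', (((n : ℝ) ^ (-s.re) : ℝ) : ℂ) * (ψ (n : ZMod q) * ch s.im n) := by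
    refine sum_congr rfl fun n hn => ?_
    rw [mem_Ioc] at hn
    have hs : s = (s.re : ℂ) + s.im * Complex.I := (Complex.re_add_im s).symm
    have := cpowTR1 s.re s.im n (by omega)
    rw [← hs] at this
    rw [this]
    ring
  rw [e1]
  set Q : ℝ := 1 / |s.im| + X ^ (-c') with hQ
  have hQ0 : 0 ≤ Q := by positivity
  have e2 := abelTR1 (fun n => ψ (n : ZMod q) * ch s.im n) (fun n => (n : ℝ) ^ (-s.re)) N N'
    (q * (C * q * N * Q)) h2 (fun n _ => by positivity)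
    (fun n hn => by
      have hn0 : (0 : ℝ) < n := by
        have : 0 < n := lt_of_le_of_lt (Nat.zero_le _) hn
        exact_mod_cast this
      push_cast
      exact Real.rpow_le_rpow_of_nonpos hn0 (by linarith) (by linarith))
    (fun m hm1 hm2 => resTR1 ψ (fun n => ch s.im n) _ _ fun u _ =>
      hE X N m q u s.im hX h1 hm1 (hm2.trans h3) hq ht1 ht2)
  refine e2.trans ?_
  have e3 : (((N + 1 : ℕ) : ℝ)) ^ (-s.re) ≤ (N : ℝ) ^ (-s.re) := by
    refine Real.rpow_le_rpow_of_nonpos hNR ?_ (by linarith)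
    push_cast
    linarith
  calc (q : ℝ) * (C * q * N * Q) * (((N + 1 : ℕ) : ℝ)) ^ (-s.re)
      ≤ (q : ℝ) * (C * q * N * Q) * (N : ℝ) ^ (-s.re) :=
        mul_le_mul_of_nonneg_left e3 (by positivity)
    _ = C * (q : ℝ) ^ 2 * ((N : ℝ) ^ (1 : ℝ) * (N : ℝ) ^ (-s.re)) * Q := by
        rw [Real.rpow_one]
        ring
    _ = C * (q : ℝ) ^ 2 * (N : ℝ) ^ (1 - s.re) * Q := by
        rw [← Real.rpow_add hNR, ← sub_eq_add_neg]

/-- AP1 for real truncations -/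
private lemma apTR1 (hAp1 : Pool.Agent.Helper23.GK.StAp1) (q : ℕ) [NeZero q]
    (ψ : DirichletCharacter ℂ q) (s : ℂ) (y Y : ℝ) (hψ : ψ ≠ 1) (hσ : 1 / 2 ≤ s.re)
    (hσ2 : s.re ≤ 2) (hY : 2 ≤ Y) (hy : Y ≤ y) :
    ‖DS ψ y s - DirichletCharacter.LFunction ψ s‖ ≤ 16 * q * ‖s‖ * Y ^ (-s.re) := by
  have hN1 : 1 ≤ ⌊y⌋₊ := Nat.one_le_floor_iff y |>.2 (by linarith)
  have h := hAp1 q ψ s ⌊y⌋₊ hψ hσ hN1
  have e1 : ∑ n ∈ Icc 1 ⌊y⌋₊, ψ (n : ZMod q) * (n : ℂ) ^ (-s) = DS ψ y s := by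
    unfold DS
    refine sum_congr ?_ fun _ _ => rfl
    ext x
    simp only [mem_Icc, mem_Ioc]
    omega
  rw [e1] at h
  rw [norm_sub_rev]
  refine h.trans ?_
  have hfl : Y / 2 ≤ (⌊y⌋₊ : ℝ) := by
    have := Nat.lt_floor_add_one y
    linarith
  have hY2 : (0 : ℝ) < Y / 2 := by linarith
  have e2 : ((⌊y⌋₊ : ℕ) : ℝ) ^ (-s.re) ≤ 4 * Y ^ (-s.re) := by
    calc ((⌊y⌋₊ : ℕ) : ℝ) ^ (-s.re) ≤ (Y / 2) ^ (-s.re) :=
          Real.rpow_le_rpow_of_nonpos hY2 hfl (by linarith)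
      _ = Y ^ (-s.re) * (2 : ℝ) ^ s.re := by
          rw [Real.div_rpow (by linarith) (by norm_num), Real.rpow_neg (by norm_num : (0 : ℝ) ≤ 2),
            div_inv_eq_mul]
      _ ≤ Y ^ (-s.re) * (2 : ℝ) ^ (2 : ℝ) := by
          refine mul_le_mul_of_nonneg_left ?_ (by positivity)
          exact Real.rpow_le_rpow_of_exponent_le (by norm_num) hσ2
      _ = 4 * Y ^ (-s.re) := by
          rw [show (2 : ℝ) ^ (2 : ℝ) = 4 by norm_num]
          ring
  calc 4 * (q : ℝ) * ‖s‖ * ((⌊y⌋₊ : ℕ) : ℝ) ^ (-s.re)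
      ≤ 4 * (q : ℝ) * ‖s‖ * (4 * Y ^ (-s.re)) := mul_le_mul_of_nonneg_left e2 (by positivity)
    _ = _ := by ring

private lemma nrmTR1 (s : ℂ) (h0 : 0 ≤ s.re) (h2 : s.re ≤ 2) (A : ℝ) (hA : 1 ≤ A)
    (ht : |s.im| ≤ A) : ‖s‖ ≤ 3 * A := by
  refine (Complex.norm_le_abs_re_add_abs_im s).trans ?_
  rw [abs_of_nonneg h0]
  linarith

theorem hTr1 (hEs4 : StEs4) (hAp1 : Pool.Agent.Helper23.GK.StAp1) : StTr1 := by
  intro κ hκ hκ1
  obtain ⟨C, c', hC, hc', hE⟩ := hEs4 (κ / 2) (by linarith) (by linarith)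
  obtain ⟨μ, hμdef⟩ : ∃ μ : ℝ, μ = min (κ / 2) c' := ⟨_, rfl⟩
  have hμ : 0 < μ := by rw [hμdef]; exact lt_min (by linarith) hc'
  have hμκ : μ ≤ κ / 2 := by rw [hμdef]; exact min_le_left _ _
  have hμc : μ ≤ c' := by rw [hμdef]; exact min_le_right _ _
  obtain ⟨c, hcdef⟩ : ∃ c : ℝ, c = μ / 24 := ⟨_, rfl⟩
  have hc : 0 < c := by rw [hcdef]; positivity
  have hcκ : c ≤ κ / 48 := by rw [hcdef]; linarith
  have ev1 : ∀ᶠ X : ℝ in Filter.atTop, 48 ≤ X ^ (κ / 4) :=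
    (tendsto_rpow_atTop (by linarith)).eventually_ge_atTop _
  have ev2 : ∀ᶠ X : ℝ in Filter.atTop, 68 * C / c ≤ X ^ (μ / 2) :=
    (tendsto_rpow_atTop (by linarith)).eventually_ge_atTop _
  obtain ⟨X1, hX1⟩ := Filter.eventually_atTop.mp (ev1.and ev2)
  refine ⟨c, max X1 96, hc, by linarith, (by norm_num : (2 : ℝ) ≤ 96).trans (le_max_right _ _), ?_⟩
  intro X y q _ ψ s hX hqX hy hψ hσ1 hσ2 ht
  have hX96 : 96 ≤ X := (le_max_right _ _).trans hX
  obtain ⟨hk1, hk2⟩ := hX1 X ((le_max_left _ _).trans hX)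
  have hX0 : 0 < X := by linarith
  have hX1' : 1 ≤ X := by linarith
  have hq0 : (0 : ℝ) ≤ q := Nat.cast_nonneg q
  have hqR : (1 : ℝ) ≤ q := by exact_mod_cast Nat.pos_of_ne_zero (NeZero.ne q)
  have hσ0 : 1 / 2 ≤ s.re := by linarith
  have hpow : ∀ a b : ℝ, a ≤ b → X ^ a ≤ X ^ b := fun a b h =>
    Real.rpow_le_rpow_of_exponent_le hX1' h
  have hppos : ∀ a : ℝ, 0 < X ^ a := fun a => Real.rpow_pos_of_pos hX0 a
  -- case (ii)
  have hbig : ∀ z : ℝ, X ^ (8 : ℝ) ≤ z →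
      ‖DS ψ z s - DirichletCharacter.LFunction ψ s‖ ≤ 1 / 2 * X ^ (-c) := by
    intro z hz
    have hY2 : 2 ≤ X ^ (8 : ℝ) := by
      calc (2 : ℝ) ≤ X ^ (1 : ℝ) := by rw [Real.rpow_one]; linarith
        _ ≤ X ^ (8 : ℝ) := hpow _ _ (by norm_num)
    have h1 := apTR1 hAp1 q ψ s z (X ^ (8 : ℝ)) hψ hσ0 hσ2 hY2 hz
    have h2 : ‖s‖ ≤ 3 * X ^ 2 := nrmTR1 s (by linarith) hσ2 _ (one_le_pow₀ hX1') ht
    have h3 : (X ^ (8 : ℝ)) ^ (-s.re) ≤ X ^ (-8 * (1 - c)) := by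
      rw [← Real.rpow_mul hX0.le]
      exact hpow _ _ (by nlinarith)
    calc _ ≤ 16 * (q : ℝ) * ‖s‖ * (X ^ (8 : ℝ)) ^ (-s.re) := h1
      _ ≤ 16 * X ^ c * (3 * X ^ 2) * X ^ (-8 * (1 - c)) := by gcongr
      _ = 48 * (X ^ c * X ^ (2 : ℝ) * X ^ (-8 * (1 - c))) := by
          rw [show X ^ (2 : ℝ) = X ^ 2 by norm_num]
          ring
      _ = 48 * (X ^ (-c) * X ^ (10 * c - 6)) := by
          rw [← Real.rpow_add hX0, ← Real.rpow_add hX0, ← Real.rpow_add hX0]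
          congr 2
          ring
      _ ≤ 48 * (X ^ (-c) * X ^ (-1 : ℝ)) := by
          gcongr 48 * (X ^ (-c) * ?_)
          exact hpow _ _ (by linarith)
      _ = X ^ (-c) * (48 * X⁻¹) := by
          rw [Real.rpow_neg_one]
          ring
      _ ≤ X ^ (-c) * (1 / 2) := by
          refine mul_le_mul_of_nonneg_left ?_ (hppos _).le
          rw [← div_eq_mul_inv, div_le_iff₀ hX0]
          linarith
      _ = _ := by ring
  by_cases hy8 : X ^ (8 : ℝ) ≤ y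
  · refine (hbig y hy8).trans ?_
    have := hppos (-c)
    linarith
  push Not at hy8
  have hκ2 : (48 : ℝ) ≤ X ^ (κ / 2) := hk1.trans (hpow _ _ (by linarith))
  have hκf : (48 : ℝ) ≤ X ^ κ := hk1.trans (hpow _ _ (by linarith))
  by_cases hts : |s.im| ≤ X ^ (κ / 2)
  · -- case (i)
    have h1 := apTR1 hAp1 q ψ s y (X ^ κ) hψ hσ0 hσ2 (by linarith) hy
    have h2 : ‖s‖ ≤ 3 * X ^ (κ / 2) := nrmTR1 s (by linarith) hσ2 _ (by linarith) hts
    have h3 : (X ^ κ) ^ (-s.re) ≤ X ^ (-κ * (1 - c)) := by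
      rw [← Real.rpow_mul hX0.le]
      exact hpow _ _ (by nlinarith)
    calc _ ≤ 16 * (q : ℝ) * ‖s‖ * (X ^ κ) ^ (-s.re) := h1
      _ ≤ 16 * X ^ c * (3 * X ^ (κ / 2)) * X ^ (-κ * (1 - c)) := by gcongr
      _ = 48 * (X ^ c * X ^ (κ / 2) * X ^ (-κ * (1 - c))) := by ring
      _ = 48 * (X ^ (-c) * X ^ (2 * c + κ * c - κ / 2)) := by
          rw [← Real.rpow_add hX0, ← Real.rpow_add hX0, ← Real.rpow_add hX0]
          congr 2
          ring
      _ ≤ 48 * (X ^ (-c) * X ^ (-(κ / 4))) := by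
          gcongr 48 * (X ^ (-c) * ?_)
          refine hpow _ _ ?_
          have : κ * c ≤ c := by nlinarith
          linarith
      _ = X ^ (-c) * (48 * (X ^ (κ / 4))⁻¹) := by
          rw [Real.rpow_neg hX0.le (κ / 4)]
          ring
      _ ≤ X ^ (-c) * 1 := by
          refine mul_le_mul_of_nonneg_left ?_ (hppos _).le
          rw [← div_eq_mul_inv, div_le_iff₀ (hppos _)]
          linarith
      _ = _ := by ring
  · -- case (iii)
    push Not at hts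
    have ht1 : 1 ≤ |s.im| := by linarith
    obtain ⟨a, ha⟩ : ∃ a : ℕ, a = ⌊y⌋₊ := ⟨_, rfl⟩
    obtain ⟨b, hb⟩ : ∃ b : ℕ, b = ⌊X ^ (8 : ℝ)⌋₊ := ⟨_, rfl⟩
    have hab : a ≤ b := by rw [ha, hb]; exact Nat.floor_le_floor hy8.le
    have hbX : (b : ℝ) ≤ X ^ (8 : ℝ) := by rw [hb]; exact Nat.floor_le (hppos _).le
    have haX : X ^ (κ / 2) ≤ (a : ℝ) := by
      have h1 : y < (a : ℝ) + 1 := by rw [ha]; exact Nat.lt_floor_add_one y
      have h2 : X ^ κ = X ^ (κ / 2) * X ^ (κ / 2) := by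
        rw [← Real.rpow_add hX0]
        congr 1
        ring
      nlinarith
    have ha1 : 1 ≤ a := by
      have : (1 : ℝ) ≤ (a : ℝ) := by linarith
      exact_mod_cast this
    have e1 : DS ψ (X ^ (8 : ℝ)) s = DS ψ y s +
        ∑ n ∈ Ioc a b, ψ (n : ZMod q) * (n : ℂ) ^ (-s) := by
      unfold DS
      rw [ha, hb, sum_Ioc_consecutive _ (Nat.zero_le _) (Nat.floor_le_floor hy8.le)]
    obtain ⟨J, hJ⟩ : ∃ J : ℕ, J = ⌈16 * Real.log X⌉₊ := ⟨_, rfl⟩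
    have hlog1 : 1 ≤ Real.log X := by
      rw [Real.le_log_iff_exp_le hX0]
      have := Real.exp_one_lt_d9
      linarith
    have hJ1 : 16 * Real.log X ≤ (J : ℝ) := by rw [hJ]; exact Nat.le_ceil _
    have hJ2 : (J : ℝ) ≤ 17 / c * X ^ c := by
      have h1 : (J : ℝ) < 16 * Real.log X + 1 := by rw [hJ]; exact Nat.ceil_lt_add_one (by linarith)
      have h2 : Real.log X ≤ X ^ c / c := Real.log_le_rpow_div hX0.le hc
      have h3 : 17 / c * X ^ c = 17 * (X ^ c / c) := by ring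
      rw [h3]
      linarith
    have hb2 : b ≤ 2 ^ J * a := by
      have h1 : X ^ (8 : ℝ) ≤ (2 : ℝ) ^ J := by
        rw [← Real.rpow_natCast, Real.rpow_def_of_pos hX0, Real.rpow_def_of_pos (by norm_num)]
        refine Real.exp_le_exp.2 ?_
        have h2 := Real.log_two_gt_d9
        nlinarith [mul_le_mul_of_nonneg_right hJ1 (by linarith : (0 : ℝ) ≤ Real.log 2)]
      have h2 : (b : ℝ) ≤ ((2 ^ J * a : ℕ) : ℝ) := by
        push_cast
        have h3 : (1 : ℝ) ≤ (a : ℝ) := by exact_mod_cast ha1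
        have h4 : (0 : ℝ) < (2 : ℝ) ^ J := by positivity
        nlinarith
      exact_mod_cast h2
    have hblk : ‖∑ n ∈ Ioc a b, ψ (n : ZMod q) * (n : ℂ) ^ (-s)‖ ≤
        J * (C * (X ^ c) ^ 2 * X ^ (8 * c) * (2 * X ^ (-μ))) := by
      refine dyTR1 _ _ (by have := hppos c; have := hppos (8 * c); have := hppos (-μ); positivity)
        a J b hb2 ?_
      intro N N' h1 h2 h3 h4
      have hN1 : 1 ≤ N := ha1.trans h1
      have hNR : (1 : ℝ) ≤ N := by exact_mod_cast hN1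
      have hNX : (N : ℝ) ≤ X ^ (8 : ℝ) := by
        have : (N : ℝ) ≤ (b : ℝ) := by exact_mod_cast h2.trans h4
        linarith
      have h5 := blkTR1 hC hE X (by linarith) N N' q ψ s (by linarith)
        (haX.trans (by exact_mod_cast h1)) hN1 h2 h3 ht1 ht
      refine h5.trans ?_
      have h6 : (N : ℝ) ^ (1 - s.re) ≤ X ^ (8 * c) := by
        calc (N : ℝ) ^ (1 - s.re) ≤ (N : ℝ) ^ c :=
              Real.rpow_le_rpow_of_exponent_le hNR (by linarith)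
          _ ≤ (X ^ (8 : ℝ)) ^ c := Real.rpow_le_rpow (by linarith) hNX hc.le
          _ = X ^ (8 * c) := by rw [← Real.rpow_mul hX0.le]
      have h7 : 1 / |s.im| + X ^ (-c') ≤ 2 * X ^ (-μ) := by
        have h8 : 1 / |s.im| ≤ X ^ (-μ) := by
          calc 1 / |s.im| ≤ 1 / X ^ (κ / 2) := one_div_le_one_div_of_le (hppos _) hts.le
            _ = X ^ (-(κ / 2)) := by rw [Real.rpow_neg hX0.le, one_div]
            _ ≤ X ^ (-μ) := hpow _ _ (by linarith)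
        have h9 : X ^ (-c') ≤ X ^ (-μ) := hpow _ _ (by linarith)
        linarith
      have h10 := hppos c
      have h11 := hppos (8 * c)
      have h12 : 0 ≤ 1 / |s.im| + X ^ (-c') := by
        have := hppos (-c')
        positivity
      gcongr
    have hfin : (J : ℝ) * (C * (X ^ c) ^ 2 * X ^ (8 * c) * (2 * X ^ (-μ))) ≤ 1 / 2 * X ^ (-c) := by
      have h10 := hppos c
      have h11 := hppos (8 * c)
      have h12 := hppos (-μ)
      calc (J : ℝ) * (C * (X ^ c) ^ 2 * X ^ (8 * c) * (2 * X ^ (-μ)))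
          ≤ (17 / c * X ^ c) * (C * (X ^ c) ^ 2 * X ^ (8 * c) * (2 * X ^ (-μ))) :=
            mul_le_mul_of_nonneg_right hJ2 (by positivity)
        _ = 34 * C / c * (X ^ c * X ^ c * X ^ c * X ^ (8 * c) * X ^ (-μ)) := by ring
        _ = 34 * C / c * (X ^ (-c) * X ^ (-(μ / 2))) := by
            rw [← Real.rpow_add hX0, ← Real.rpow_add hX0, ← Real.rpow_add hX0,
              ← Real.rpow_add hX0, ← Real.rpow_add hX0]
            congr 2
            rw [hcdef]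
            ring
        _ = X ^ (-c) * (34 * C / c * (X ^ (μ / 2))⁻¹) := by
            rw [Real.rpow_neg hX0.le (μ / 2)]
            ring
        _ ≤ X ^ (-c) * (1 / 2) := by
            refine mul_le_mul_of_nonneg_left ?_ (hppos _).le
            rw [← div_eq_mul_inv, div_le_iff₀ (hppos _)]
            have : 34 * C / c = 1 / 2 * (68 * C / c) := by ring
            rw [this]
            linarith
        _ = _ := by ring
    have e2 : DS ψ y s - DirichletCharacter.LFunction ψ s =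
        (DS ψ (X ^ (8 : ℝ)) s - DirichletCharacter.LFunction ψ s) -
          ∑ n ∈ Ioc a b, ψ (n : ZMod q) * (n : ℂ) ^ (-s) := by
      rw [e1]
      ring
    rw [e2]
    calc _ ≤ 1 / 2 * X ^ (-c) + 1 / 2 * X ^ (-c) :=
          (norm_sub_le _ _).trans (add_le_add (hbig _ le_rfl) (hblk.trans hfin))
      _ = _ := by ring

end Pool.Agent.Helper20.MV
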